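import Pool.Agent.H12.CSP.B.TH610.CSP.Stm

/-! # ARITH (job 5204, helper460): Mennicke symbols in a group of finite exponent are trivial -/

set_option autoImplicit false

namespace Pool.Agent.TH610.CSP

namespace Arith

/-- the hypotheses on `f` -/
structure Men {Q : Type} [Group Q] (n0 : ℕ) (f : ℤ → ℤ → Q) : Prop where
  per1 : ∀ a b t : ℤ, IsCoprime a b → (8 * n0 : ℤ) ∣ a - 1 → (8 * n0 : ℤ) ∣ b →
    f (a + t * b) b = f a b
  per2 : ∀ a b t : ℤ, IsCoprime a b → (8 * n0 : ℤ) ∣ a - 1 → (8 * n0 : ℤ) ∣ b →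
    f a (b + 8 * n0 * t * a) = f a b
  mul : ∀ a a' b : ℤ, IsCoprime a b → IsCoprime a' b → (8 * n0 : ℤ) ∣ a - 1 →
    (8 * n0 : ℤ) ∣ a' - 1 → (8 * n0 : ℤ) ∣ b → f (a * a') b = f a b * f a' b

theorem f_one {Q : Type} [Group Q] {n0 : ℕ} {f : ℤ → ℤ → Q} (h : Men n0 f) (b : ℤ)
    (hb : (8 * n0 : ℤ) ∣ b) : f 1 b = 1 := by
  have h1 := h.mul 1 1 b isCoprime_one_left isCoprime_one_left (by simp) (by simp) hb
  rw [one_mul] at h1
  exact mul_left_cancel (a := f 1 b) (by rw [mul_one]; exact h1.symm)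

theorem f_pow {Q : Type} [Group Q] {n0 : ℕ} {f : ℤ → ℤ → Q} (h : Men n0 f) (z b : ℤ)
    (hz : (8 * n0 : ℤ) ∣ z - 1) (hb : (8 * n0 : ℤ) ∣ b) (hc : IsCoprime z b) (k : ℕ) :
    f (z ^ k) b = f z b ^ k := by
  induction k with
  | zero => rw [pow_zero, pow_zero]; exact f_one h b hb
  | succ k ih =>
    rw [pow_succ, pow_succ, h.mul (z ^ k) z b hc.pow_left hc
      (dvd_trans hz (by simpa using sub_dvd_pow_sub_pow z 1 k)) hz hb, ih]

theorem f_sq {Q : Type} [Group Q] {n0 : ℕ} {f : ℤ → ℤ → Q} (h : Men n0 f)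
    (hQ : ∀ x : Q, x ^ n0 = 1) {p : ℕ} (hp : p.Prime) (hpq : (8 * n0 : ℤ) ∣ p + 1) (b z : ℤ)
    (hb : (8 * n0 : ℤ) ∣ b) (hbp : b ∣ 8 * n0 * p) (hz : (8 * n0 : ℤ) ∣ z - 1)
    (hzp : IsCoprime z (p : ℤ)) (hzb : IsCoprime z b) : f z b * f z b = 1 := by
  have e1 : (p : ℤ) ∣ z ^ (p - 1) - 1 := by
    have := Int.ModEq.pow_card_sub_one_eq_one hp hzp
    exact Int.modEq_iff_dvd.1 this.symm
  have e2 : (8 * n0 : ℤ) ∣ z ^ (p - 1) - 1 :=
    dvd_trans hz (by simpa using sub_dvd_pow_sub_pow z 1 (p - 1))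
  have hcop : IsCoprime (8 * n0 : ℤ) (p : ℤ) := by
    obtain ⟨k, hk⟩ := hpq
    exact ⟨k, -1, by linarith⟩
  have e3 : b ∣ z ^ (p - 1) - 1 := dvd_trans hbp (hcop.mul_dvd e2 e1)
  obtain ⟨t, ht⟩ := e3
  have e4 : f z b ^ (p - 1) = 1 := by
    rw [← f_pow h z b hz hb hzb]
    have : z ^ (p - 1) = 1 + t * b := by linarith
    rw [this, h.per1 1 b t isCoprime_one_left (by simp) hb, f_one h b hb]
  have e5 : f z b ^ ((p - 1).gcd n0) = 1 := pow_gcd_eq_one.2 ⟨e4, hQ _⟩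
  have e6 : (p - 1).gcd n0 ∣ 2 := by
    have g1 : (((p - 1).gcd n0 : ℕ) : ℤ) ∣ (p : ℤ) - 1 := by
      have := Int.natCast_dvd_natCast.2 (Nat.gcd_dvd_left (p - 1) n0)
      rwa [Nat.cast_sub hp.one_le, Nat.cast_one] at this
    have g2 : (((p - 1).gcd n0 : ℕ) : ℤ) ∣ (p : ℤ) + 1 := by
      refine dvd_trans ?_ hpq
      exact dvd_mul_of_dvd_right (Int.natCast_dvd_natCast.2 (Nat.gcd_dvd_right (p - 1) n0)) 8
    have g3 : (((p - 1).gcd n0 : ℕ) : ℤ) ∣ 2 := by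
      have := dvd_sub g2 g1
      have e : (p : ℤ) + 1 - (p - 1) = 2 := by ring
      rwa [e] at this
    exact_mod_cast g3
  obtain ⟨c, hc⟩ := e6
  rw [← sq, hc, pow_mul, e5, one_pow]

theorem neg_case {Q : Type} [Group Q] {n0 : ℕ} (hn : 0 < n0) {f : ℤ → ℤ → Q} (h : Men n0 f)
    (hQ : ∀ x : Q, x ^ n0 = 1) (α : ℕ) (b : ℤ) (hα : 0 < α)
    (hc : IsCoprime (-(α : ℤ)) b) (ha : (8 * n0 : ℤ) ∣ -(α : ℤ) - 1)
    (hb : (8 * n0 : ℤ) ∣ b) : f (-(α : ℤ)) b = 1 := by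
  obtain ⟨b0, rfl⟩ := hb
  have hcα : IsCoprime (α : ℤ) (8 * n0 * b0) := (IsCoprime.neg_left_iff _ _).1 hc
  have hcq : IsCoprime (α : ℤ) (8 * n0) := hcα.of_mul_right_left
  have hcb : IsCoprime (α : ℤ) b0 := hcα.of_mul_right_right
  have hα4 : α % 4 = 3 := by
    obtain ⟨k, hk⟩ := ha
    obtain ⟨m, hm⟩ : ∃ m : ℤ, m = n0 * k := ⟨_, rfl⟩
    have : -(α : ℤ) - 1 = 8 * m := by rw [hm, hk]; ring
    omega
  obtain ⟨s, hs, hsJ⟩ : ∃ s : ℤ, (s = 1 ∨ s = -1) ∧ jacobiSym (s * b0) α = 1 := by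
    have hodd : Odd α := by rw [Nat.odd_iff]; omega
    have hg : b0.gcd α = 1 := by
      rw [← Int.isCoprime_iff_gcd_eq_one]
      exact hcb.symm
    rcases jacobiSym.eq_one_or_neg_one hg with h1 | h1
    · exact ⟨1, Or.inl rfl, by rw [one_mul]; exact h1⟩
    · refine ⟨-1, Or.inr rfl, ?_⟩
      rw [neg_one_mul, jacobiSym.neg b0 hodd, h1, ZMod.χ₄_nat_three_mod_four hα4]
      norm_num
  have hss : s * s = 1 := by rcases hs with rfl | rfl <;> norm_num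
  obtain ⟨u, v, huv⟩ := hcq
  set r : ℤ := s * b0 * (v * (8 * n0)) - u * α with hr
  have r1 : (α : ℤ) ∣ r - s * b0 :=
    ⟨-(s * b0 * u) - u, by rw [hr]; linear_combination (s * b0) * huv⟩
  have r2 : (8 * n0 : ℤ) ∣ r + 1 :=
    ⟨s * b0 * v + v, by rw [hr]; linear_combination -huv⟩
  have hru : IsUnit ((r : ℤ) : ZMod (α * (8 * n0))) := by
    rw [ZMod.coe_int_isUnit_iff_isCoprime]
    push_cast
    refine IsCoprime.mul_left ?_ ?_
    · obtain ⟨k, hk⟩ := r1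
      have e : r = s * b0 + α * k := by linarith
      rw [e]
      have hsb : IsCoprime (α : ℤ) (s * b0) := by
        rcases hs with rfl | rfl
        · simpa using hcb
        · rw [neg_one_mul]
          exact (IsCoprime.neg_right_iff _ _).2 hcb
      exact hsb.add_mul_left_right k
    · obtain ⟨k, hk⟩ := r2
      exact ⟨k, -1, by linarith⟩
  have : NeZero (α * (8 * n0)) := ⟨(Nat.mul_pos hα (Nat.mul_pos (by norm_num) hn)).ne'⟩
  obtain ⟨p, hpB, hp, hpr⟩ := Nat.forall_exists_prime_gt_and_eq_mod hru α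
  have hpr' : ((α * (8 * n0) : ℕ) : ℤ) ∣ r - p :=
    (ZMod.intCast_eq_intCast_iff_dvd_sub (p : ℤ) r _).1 (by push_cast; exact hpr)
  have p1 : (α : ℤ) ∣ p - s * b0 := by
    have h1 : (α : ℤ) ∣ r - p := dvd_trans ⟨8 * n0, by push_cast; ring⟩ hpr'
    have h2 := dvd_sub r1 h1
    have e : (r - s * b0) - (r - p) = p - s * b0 := by ring
    rwa [e] at h2
  have p2 : (8 * n0 : ℤ) ∣ p + 1 := by
    have h1 : (8 * n0 : ℤ) ∣ r - p := dvd_trans ⟨α, by push_cast; ring⟩ hpr'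
    have h2 := dvd_sub r2 h1
    have e : (r + 1) - (r - p) = p + 1 := by ring
    rwa [e] at h2
  have hp4 : p % 4 = 3 := by
    obtain ⟨k, hk⟩ := p2
    obtain ⟨m, hm⟩ : ∃ m : ℤ, m = n0 * k := ⟨_, rfl⟩
    have : (p : ℤ) + 1 = 8 * m := by rw [hm, hk]; ring
    omega
  have j1 : jacobiSym (p : ℤ) α = 1 := by
    rw [← hsJ]
    exact jacobiSym.mod_left' (Int.modEq_iff_dvd.2 p1).symm
  have j2 : jacobiSym (α : ℤ) p = -1 := by
    have := jacobiSym.quadratic_reciprocity_three_mod_four hp4 hα4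
    rw [j1] at this
    linarith
  have j3 : jacobiSym (-(α : ℤ)) p = 1 := by
    rw [jacobiSym.neg _ (by rw [Nat.odd_iff]; omega), ZMod.χ₄_nat_three_mod_four hp4, j2]
    norm_num
  have : Fact p.Prime := ⟨hp⟩
  rw [← jacobiSym.legendreSym.to_jacobiSym] at j3
  have hne : ((-(α : ℤ) : ℤ) : ZMod p) ≠ 0 := by
    rw [Ne, ZMod.intCast_zmod_eq_zero_iff_dvd, dvd_neg, Int.natCast_dvd_natCast]
    intro hd
    exact absurd (Nat.le_of_dvd hα hd) (not_le.2 hpB)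
  obtain ⟨w, hw⟩ := (legendreSym.eq_one_iff p hne).1 j3
  obtain ⟨w0, rfl⟩ := ZMod.intCast_surjective w
  have hw' : (p : ℤ) ∣ w0 * w0 - -(α : ℤ) := by
    rw [← ZMod.intCast_eq_intCast_iff_dvd_sub, hw]
    push_cast
    ring
  obtain ⟨k, hk⟩ := p1
  have e5 : f (-(α : ℤ)) (8 * n0 * (s * p)) = f (-(α : ℤ)) (8 * n0 * b0) := by
    have h1 := h.per2 (-(α : ℤ)) (8 * n0 * b0) (-(s * k)) hc ha (dvd_mul_right _ _)
    rw [← h1]
    congr 1
    linear_combination (8 * n0 * s) * hk + (8 * n0 * b0) * hss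
  have hc' : IsCoprime (-(α : ℤ)) (8 * n0 * (s * p)) := by
    have h1 := hc.add_mul_left_right (8 * n0 * -(s * k))
    have e : (8 * n0 * b0 + -(α : ℤ) * (8 * n0 * -(s * k)) : ℤ) = 8 * n0 * (s * p) := by
      linear_combination -(8 * n0 * s) * hk - (8 * n0 * b0) * hss
    rwa [e] at h1
  obtain ⟨k2, hk2⟩ := id p2
  -- the square root
  set y : ℤ := w0 * (k2 * (8 * n0)) - p with hy
  have y1 : (8 * n0 : ℤ) ∣ y - 1 := ⟨w0 * k2 - k2, by rw [hy]; linear_combination -hk2⟩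
  have y2 : (p : ℤ) ∣ y - w0 := ⟨w0 - 1, by rw [hy]; linear_combination -w0 * hk2⟩
  have hcop : IsCoprime (8 * n0 : ℤ) (p : ℤ) := ⟨k2, -1, by linarith⟩
  have d1 : (8 * n0 : ℤ) ∣ -(α : ℤ) - y * y := by
    have e : -(α : ℤ) - y * y = (-(α : ℤ) - 1) - (y - 1) * (y + 1) := by ring
    rw [e]
    exact dvd_sub ha (dvd_mul_of_dvd_left y1 _)
  have d2 : (p : ℤ) ∣ -(α : ℤ) - y * y := by
    have e : -(α : ℤ) - y * y = -(w0 * w0 - -(α : ℤ)) - (y - w0) * (y + w0) := by ring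
    rw [e]
    exact dvd_sub ((dvd_neg).2 hw') (dvd_mul_of_dvd_left y2 _)
  obtain ⟨t, ht⟩ := hcop.mul_dvd d1 d2
  have ht' : -(α : ℤ) = y * y + (s * t) * (8 * n0 * (s * p)) := by
    linear_combination ht - (8 * n0 * p * t) * hss
  have hyy : IsCoprime (y * y) (8 * n0 * (s * p) : ℤ) := by
    have h1 := hc'.add_mul_right_left (-(s * t))
    have e : -(α : ℤ) + -(s * t) * (8 * n0 * (s * p)) = y * y := by linarith
    rwa [e] at h1
  have hyb : IsCoprime y (8 * n0 * (s * p) : ℤ) := hyy.of_mul_left_left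
  have hyp : IsCoprime y (p : ℤ) :=
    IsCoprime.of_isCoprime_of_dvd_right hyb ⟨8 * n0 * s, by ring⟩
  have hyy1 : (8 * n0 : ℤ) ∣ y * y - 1 := by
    have e : y * y - 1 = (y - 1) * (y + 1) := by ring
    rw [e]
    exact dvd_mul_of_dvd_left y1 _
  have hbd : (8 * n0 : ℤ) ∣ 8 * n0 * (s * p) := dvd_mul_right _ _
  rw [← e5, ht', h.per1 (y * y) _ (s * t) hyy hyy1 hbd, h.mul y y _ hyb hyb y1 y1 hbd]
  exact f_sq h hQ hp p2 _ y hbd ⟨s, by linear_combination -(8 * n0 * p) * hss⟩ y1 hyp hyb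

end Arith

theorem t_arith : StArith := by
  intro Q _ n0 hn hQ f per1 per2 mul a b hc ha hb
  have h : Arith.Men n0 f := ⟨per1, per2, mul⟩
  by_cases hb0 : b = 0
  · subst hb0
    rcases Int.isUnit_iff.1 (isCoprime_zero_right.1 hc) with rfl | rfl
    · exact Arith.f_one h 0 (dvd_zero _)
    · exfalso
      obtain ⟨k, hk⟩ := ha
      obtain ⟨m, hm⟩ : ∃ m : ℤ, m = n0 * k := ⟨_, rfl⟩
      have : (-1 : ℤ) - 1 = 8 * m := by rw [hm, hk]; ring
      omega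
  · obtain ⟨t, ht⟩ : ∃ t : ℤ, a + t * b < 0 := by
      refine ⟨-(|a| + 1) * b, ?_⟩
      have h1 : 1 ≤ b * b := by
        have := mul_self_pos.2 hb0
        omega
      nlinarith [abs_nonneg a, le_abs_self a]
    rw [← per1 a b t hc ha hb]
    have hα : a + t * b = -(((-(a + t * b)).toNat : ℕ) : ℤ) := by omega
    have h1 : IsCoprime (a + t * b) b := hc.add_mul_right_left t
    have h2 : (8 * n0 : ℤ) ∣ a + t * b - 1 := by
      have e : a + t * b - 1 = (a - 1) + t * b := by ring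
      rw [e]
      exact dvd_add ha (dvd_mul_of_dvd_right hb _)
    rw [hα] at h1 h2 ⊢
    exact Arith.neg_case hn h hQ _ b (by omega) h1 h2 hb

end Pool.Agent.TH610.CSP
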