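import Pool.Agent.H12.CSP.B.TH610.CSP.Stm

/-!
# The congruence subgroup property of `SL_n(ℤ)` from the `2 × 2` blocks
-/

set_option autoImplicit false

open Matrix

namespace Pool.Agent.TH610.CSP

namespace CspAux

variable {n : ℕ}

lemma transvection_mul {i j : Fin n} (h : i ≠ j) (a b : ℤ) :
    SpecialLinearGroup.transvection h a * SpecialLinearGroup.transvection h b =
      SpecialLinearGroup.transvection h (a + b) := by
  apply Subtype.ext
  show Matrix.transvection i j a * Matrix.transvection i j b = Matrix.transvection i j (a + b)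
  exact Matrix.transvection_mul_transvection_same i j h a b

lemma transvection_zero' {i j : Fin n} (h : i ≠ j) :
    SpecialLinearGroup.transvection h (0 : ℤ) = 1 := by
  apply Subtype.ext
  show Matrix.transvection i j (0 : ℤ) = 1
  exact Matrix.transvection_zero i j

lemma transvection_pow {i j : Fin n} (h : i ≠ j) (a : ℤ) (k : ℕ) :
    SpecialLinearGroup.transvection h a ^ k = SpecialLinearGroup.transvection h (k * a) := by
  induction k with
  | zero => rw [pow_zero, Nat.cast_zero, zero_mul, transvection_zero']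
  | succ k ih => rw [pow_succ, ih, transvection_mul]; congr 1; push_cast; ring

lemma EE_le {H : Subgroup (SLn n)} {n0 : ℕ} (hpow : ∀ A : SLn n, A ^ n0 ∈ H) {m : ℤ}
    (hm : (n0 : ℤ) ∣ m) : EE n m ≤ H := by
  obtain ⟨s, rfl⟩ := hm
  rw [EE, Subgroup.closure_le]
  rintro A ⟨i, j, h, t, rfl⟩
  have e : SpecialLinearGroup.transvection h ((n0 : ℤ) * s * t) =
      SpecialLinearGroup.transvection h (s * t) ^ n0 := by
    rw [transvection_pow, mul_assoc]
  rw [e]
  exact hpow _

end CspAux

open CspAux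

theorem t_csp (h2 : StTwo) (hR : StRed) : StCSP := by
  intro n hn H hH
  haveI := hH
  set H' : Subgroup (SLn n) := H.normalCore with hH'
  have hle : H' ≤ H := Subgroup.normalCore_le H
  haveI hfin : H'.FiniteIndex := by rw [hH']; infer_instance
  haveI hnorm : H'.Normal := by rw [hH']; infer_instance
  set n0 : ℕ := H'.index with hn0
  have hn0pos : 0 < n0 := Nat.pos_of_ne_zero hfin.index_ne_zero
  have hpow : ∀ A : SLn n, A ^ n0 ∈ H' := fun A => Subgroup.pow_index_mem H' A
  have key : ∀ k, 2 ≤ k → k ≤ n → ∃ M : ℕ, 0 < M ∧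
      ∀ A : SLn n, Blk k A → Cong M A → A ∈ H' := by
    intro k hk
    induction k, hk using Nat.le_induction with
    | base =>
      intro _
      refine ⟨8 * n0, by positivity, fun A hA hc => ?_⟩
      refine h2 n hn H' hnorm n0 hn0pos hpow A hA ?_
      have e : ((8 * n0 : ℕ) : ℤ) = 8 * (n0 : ℤ) := by push_cast; ring
      rwa [e] at hc
    | succ k hk ih =>
      intro hkn
      obtain ⟨M, hM, hMA⟩ := ih (by omega)
      refine ⟨(M * n0) ^ 2, by positivity, fun A hA hc => ?_⟩
      have hm1 : (1 : ℤ) ≤ ((M * n0 : ℕ) : ℤ) := by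
        have : 0 < M * n0 := by positivity
        exact_mod_cast this
      have e : (((M * n0) ^ 2 : ℕ) : ℤ) = ((M * n0 : ℕ) : ℤ) ^ 2 := by push_cast; ring
      rw [e] at hc
      obtain ⟨E₁, hE₁, E₂, hE₂, A', hA', hcA', rfl⟩ := hR n k _ hk hkn hm1 A hA hc
      have hd : (n0 : ℤ) ∣ ((M * n0 : ℕ) : ℤ) := ⟨M, by push_cast; ring⟩
      have hdM : (M : ℤ) ∣ ((M * n0 : ℕ) : ℤ) := ⟨n0, by push_cast; ring⟩
      have hE := EE_le hpow hd
      exact H'.mul_mem (H'.mul_mem (hE hE₁) (hMA A' hA' fun i j => hdM.trans (hcA' i j)))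
        (hE hE₂)
  obtain ⟨M, hM, hMA⟩ := key n (by omega) le_rfl
  refine ⟨M, hM, fun A hA => hle (hMA A ?_ hA)⟩
  intro i j hij
  exfalso
  rcases hij with h | h
  · exact absurd i.2 (not_lt.2 h)
  · exact absurd j.2 (not_lt.2 h)

end Pool.Agent.TH610.CSP
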