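import Pool.Agent.H12.CSP.B.TH610.CSP.Stm

/-! # `SL_n(ℤ)` is generated by transvections -/

set_option autoImplicit false

open Matrix

namespace Pool.Agent.TH610.CSP

namespace Gen

lemma tr_mem {n : ℕ} {i j : Fin n} (h : i ≠ j) (t : ℤ) :
    (SpecialLinearGroup.transvection h t : SLn n) ∈ EE n 1 :=
  Subgroup.subset_closure ⟨i, j, h, t, by rw [one_mul]⟩

lemma mul_tr_same {n : ℕ} {i j : Fin n} (h : i ≠ j) (t : ℤ) (A : SLn n) (x : Fin n) :
    (A * SpecialLinearGroup.transvection h t).1 x j = A.1 x j + t * A.1 x i := by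
  show (A.1 * Matrix.transvection i j t) x j = _
  rw [Matrix.mul_transvection_apply_same]

lemma mul_tr_ne {n : ℕ} {i j : Fin n} (h : i ≠ j) (t : ℤ) (A : SLn n) (x y : Fin n)
    (hy : y ≠ j) : (A * SpecialLinearGroup.transvection h t).1 x y = A.1 x y := by
  show (A.1 * Matrix.transvection i j t) x y = _
  rw [Matrix.mul_transvection_apply_of_ne _ _ _ _ hy]

lemma mem_of_mul {n : ℕ} {i j : Fin n} (h : i ≠ j) (t : ℤ) (A : SLn n)
    (hA : A * SpecialLinearGroup.transvection h t ∈ EE n 1) : A ∈ EE n 1 := by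
  have h1 := (EE n 1).mul_mem hA ((EE n 1).inv_mem (tr_mem h t))
  rwa [mul_inv_cancel_right] at h1

lemma blk_mul {n : ℕ} {i j : Fin n} (h : i ≠ j) (hi : (i : ℕ) < 2) (hj : (j : ℕ) < 2) (t : ℤ)
    (A : SLn n) (hA : Blk 2 A) : Blk 2 (A * SpecialLinearGroup.transvection h t) := by
  intro x y hxy
  by_cases hy : y = j
  · subst hy
    have hx : 2 ≤ (x : ℕ) := hxy.resolve_right (by omega)
    rw [mul_tr_same, hA x y (Or.inl hx), hA x i (Or.inl hx)]
    have h1 : x ≠ i := by
      intro h1
      rw [h1] at hx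
      omega
    rw [Matrix.one_apply_ne h1, mul_zero, add_zero]
  · rw [mul_tr_ne h t A x y hy]
    exact hA x y hxy

section two

variable {m : ℕ}

lemma h01 : (0 : Fin (m + 2)) ≠ 1 := by
  intro h
  have := congrArg Fin.val h
  simp at this

/-- a lower triangular block -/
lemma det_low (A : SLn (m + 2)) (hA : Blk 2 A) (hb : A.1 0 1 = 0) :
    A.1 0 0 * A.1 1 1 = 1 := by
  have hT : A.1.BlockTriangular OrderDual.toDual := by
    intro x y hxy
    have hxy' : x < y := hxy
    by_cases hy : 2 ≤ (y : ℕ)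
    · rw [hA x y (Or.inr hy), Matrix.one_apply_ne hxy'.ne]
    · have hv : (x : ℕ) < (y : ℕ) := hxy'
      have hx0 : x = 0 := Fin.ext (by show (x : ℕ) = 0; omega)
      have hy1 : y = 1 := Fin.ext (by show (y : ℕ) = 1; omega)
      rw [hx0, hy1]
      exact hb
  have h1 := Matrix.det_of_isLowerTriangular A.1 hT
  rw [A.2, Fin.prod_univ_succ, Fin.prod_univ_succ] at h1
  have h2 : ∏ i : Fin m, A.1 i.succ.succ i.succ.succ = 1 := by
    refine Finset.prod_eq_one fun i _ => ?_
    rw [hA _ _ (Or.inl (by simp)), Matrix.one_apply_eq]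
  rw [h2, mul_one] at h1
  exact h1.symm

lemma low_one (A : SLn (m + 2)) (hA : Blk 2 A) (hb : A.1 0 1 = 0) (ha : A.1 0 0 = 1) :
    A ∈ EE (m + 2) 1 := by
  have hd := det_low A hA hb
  rw [ha, one_mul] at hd
  have hAe : A = SpecialLinearGroup.transvection (h01 (m := m)).symm (A.1 1 0) := by
    apply Subtype.ext
    show A.1 = Matrix.transvection 1 0 (A.1 1 0)
    have e : Matrix.transvection 1 0 (A.1 1 0) =
        (1 : Matrix (Fin (m + 2)) (Fin (m + 2)) ℤ) * Matrix.transvection 1 0 (A.1 1 0) := by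
      rw [one_mul]
    rw [e]
    ext x y
    by_cases hy : y = 0
    · subst hy
      rw [Matrix.mul_transvection_apply_same]
      by_cases hx : 2 ≤ (x : ℕ)
      · rw [hA x 0 (Or.inl hx)]
        have h1 : x ≠ 1 := by
          intro h1
          rw [h1] at hx
          simp at hx
        rw [Matrix.one_apply_ne h1, mul_zero, add_zero]
      · by_cases hx0 : x = 0
        · subst hx0
          rw [ha, Matrix.one_apply_eq, Matrix.one_apply_ne h01, mul_zero, add_zero]
        · have hx1 : x = 1 := Fin.ext (by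
            have : (x : ℕ) ≠ 0 := fun h => hx0 (Fin.ext h)
            show (x : ℕ) = 1
            omega)
          subst hx1
          rw [Matrix.one_apply_eq, Matrix.one_apply_ne h01.symm, mul_one, zero_add]
    · rw [Matrix.mul_transvection_apply_of_ne _ _ _ _ hy]
      by_cases hxy : 2 ≤ (x : ℕ) ∨ 2 ≤ (y : ℕ)
      · exact hA x y hxy
      · have hy1 : y = 1 := Fin.ext (by
          have : (y : ℕ) ≠ 0 := fun h => hy (Fin.ext h)
          show (y : ℕ) = 1
          omega)
        subst hy1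
        by_cases hx0 : x = 0
        · subst hx0
          rw [hb, Matrix.one_apply_ne h01]
        · have hx1 : x = 1 := Fin.ext (by
            have : (x : ℕ) ≠ 0 := fun h => hx0 (Fin.ext h)
            show (x : ℕ) = 1
            omega)
          subst hx1
          rw [hd, Matrix.one_apply_eq]
  rw [hAe]
  exact tr_mem _ _

lemma v0 : ((0 : Fin (m + 2)) : ℕ) < 2 := by simp

lemma v1 : ((1 : Fin (m + 2)) : ℕ) < 2 := by simp

lemma two_aux : ∀ (k : ℕ) (A : SLn (m + 2)), Blk 2 A → (A.1 0 1).natAbs = k →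
    A ∈ EE (m + 2) 1 := by
  intro k
  induction k using Nat.strong_induction_on with
  | _ k ih =>
    intro A hA hk
    by_cases hb : A.1 0 1 = 0
    · have hd := det_low A hA hb
      rcases Int.isUnit_iff.1 (IsUnit.of_mul_eq_one _ hd) with ha | ha
      · exact low_one A hA hb ha
      · -- the row `(-1, 0)`
        set A1 := A * SpecialLinearGroup.transvection (h01 (m := m)) (-1) with hA1
        set A2 := A1 * SpecialLinearGroup.transvection (h01 (m := m)).symm 2 with hA2
        set A3 := A2 * SpecialLinearGroup.transvection (h01 (m := m)) (-1) with hA3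
        have b1 : Blk 2 A1 := blk_mul _ v0 v1 _ A hA
        have b2 : Blk 2 A2 := blk_mul _ v1 v0 _ A1 b1
        have b3 : Blk 2 A3 := blk_mul _ v0 v1 _ A2 b2
        have e10 : A1.1 0 0 = -1 := by rw [hA1, mul_tr_ne _ _ _ _ _ h01, ha]
        have e11 : A1.1 0 1 = 1 := by rw [hA1, mul_tr_same, ha, hb]; norm_num
        have e20 : A2.1 0 0 = 1 := by rw [hA2, mul_tr_same, e10, e11]; norm_num
        have e21 : A2.1 0 1 = 1 := by rw [hA2, mul_tr_ne _ _ _ _ _ h01.symm, e11]
        have e30 : A3.1 0 0 = 1 := by rw [hA3, mul_tr_ne _ _ _ _ _ h01, e20]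
        have e31 : A3.1 0 1 = 0 := by rw [hA3, mul_tr_same, e20, e21]; norm_num
        exact mem_of_mul _ _ _ (mem_of_mul _ _ _ (mem_of_mul _ _ _ (low_one A3 b3 e31 e30)))
    · set A1 := A * SpecialLinearGroup.transvection (h01 (m := m)).symm
        (-(A.1 0 0 / A.1 0 1)) with hA1
      set A2 := A1 * SpecialLinearGroup.transvection (h01 (m := m)) 1 with hA2
      set A3 := A2 * SpecialLinearGroup.transvection (h01 (m := m)).symm (-1) with hA3
      set A4 := A3 * SpecialLinearGroup.transvection (h01 (m := m)) 1 with hA4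
      have b1 : Blk 2 A1 := blk_mul _ v1 v0 _ A hA
      have b2 : Blk 2 A2 := blk_mul _ v0 v1 _ A1 b1
      have b3 : Blk 2 A3 := blk_mul _ v1 v0 _ A2 b2
      have b4 : Blk 2 A4 := blk_mul _ v0 v1 _ A3 b3
      have e10 : A1.1 0 0 = A.1 0 0 % A.1 0 1 := by
        rw [hA1, mul_tr_same, Int.emod_def]
        ring
      have e11 : A1.1 0 1 = A.1 0 1 := by rw [hA1, mul_tr_ne _ _ _ _ _ h01.symm]
      have e20 : A2.1 0 0 = A.1 0 0 % A.1 0 1 := by rw [hA2, mul_tr_ne _ _ _ _ _ h01, e10]
      have e21 : A2.1 0 1 = A.1 0 1 + A.1 0 0 % A.1 0 1 := by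
        rw [hA2, mul_tr_same, e10, e11]
        ring
      have e30 : A3.1 0 0 = -A.1 0 1 := by
        rw [hA3, mul_tr_same, e20, e21]
        ring
      have e31 : A3.1 0 1 = A.1 0 1 + A.1 0 0 % A.1 0 1 := by
        rw [hA3, mul_tr_ne _ _ _ _ _ h01.symm, e21]
      have e41 : A4.1 0 1 = A.1 0 0 % A.1 0 1 := by
        rw [hA4, mul_tr_same, e30, e31]
        ring
      have hlt : (A4.1 0 1).natAbs < k := by
        rw [e41, ← hk]
        have h1 := Int.emod_nonneg (A.1 0 0) hb
        have h2 := Int.emod_lt_abs (A.1 0 0) hb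
        rw [Int.abs_eq_natAbs] at h2
        omega
      exact mem_of_mul _ _ _ (mem_of_mul _ _ _ (mem_of_mul _ _ _ (mem_of_mul _ _ _
        (ih _ hlt A4 b4 rfl))))

end two

end Gen

theorem t_gen (hR : StRed) : StGen := by
  intro n
  rcases Nat.lt_or_ge n 2 with hn | hn
  · have : Subsingleton (Fin n) := by
      refine ⟨fun a b => Fin.ext ?_⟩
      have := a.2
      have := b.2
      omega
    refine (Subgroup.eq_top_iff' _).2 fun A => ?_
    rw [Subsingleton.elim A 1]
    exact one_mem _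
  · obtain ⟨m, rfl⟩ : ∃ m, n = m + 2 := ⟨n - 2, by omega⟩
    have key : ∀ k : ℕ, 2 ≤ k → k ≤ m + 2 → ∀ A : SLn (m + 2), Blk k A → A ∈ EE (m + 2) 1 := by
      intro k hk
      induction k, hk using Nat.le_induction with
      | base =>
        intro _ A hA
        exact Gen.two_aux _ A hA rfl
      | succ k hk ih =>
        intro hkn A hA
        obtain ⟨E₁, h1, E₂, h2, A', hB, -, he⟩ := hR (m + 2) k 1 hk hkn le_rfl A hA
          (fun i j => by rw [one_pow]; exact one_dvd _)
        rw [he]
        exact mul_mem (mul_mem h1 (ih (by omega) A' hB)) h2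
    refine (Subgroup.eq_top_iff' _).2 fun A => key (m + 2) (by omega) le_rfl A ?_
    intro i j hij
    have := i.2
    have := j.2
    omega

end Pool.Agent.TH610.CSP
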