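import Pool.Agent.H12.CSP.B.TH610.CSP.Stm

/-!
# RED: reduction of the size of the block

The last row of the block is made unimodular without its last entry, then the last entry is made
equal to `1`, and finally the last row and the last column are cleared.
-/

set_option autoImplicit false

open Matrix

namespace Pool.Agent.TH610.CSP

namespace Red

/-! ## Arithmetic -/

theorem cop (a r g : ℤ) (hg : g ≠ 0) (h : ∃ x y z : ℤ, x * a + y * r + z * g = 1) :
    ∃ t : ℤ, IsCoprime (a + t * r) g := by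
  classical
  obtain ⟨x, y, z, h⟩ := h
  set S : Finset ℕ := g.natAbs.primeFactors.filter (fun p => ¬ (p : ℤ) ∣ a) with hS
  refine ⟨∏ p ∈ S, (p : ℤ), ?_⟩
  refine isCoprime_of_prime_dvd (fun h => hg h.2) ?_
  intro q hq hq1 hq2
  have hqn : q.natAbs.Prime := Int.prime_iff_natAbs_prime.1 hq
  have key : ∀ w : ℤ, q ∣ w ↔ ((q.natAbs : ℕ) : ℤ) ∣ w := by
    intro w
    rw [Int.natCast_natAbs, abs_dvd]
  have hmem : q.natAbs ∈ g.natAbs.primeFactors := by
    rw [Nat.mem_primeFactors]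
    exact ⟨hqn, Int.natAbs_dvd_natAbs.2 hq2, by simpa using hg⟩
  by_cases ha : q ∣ a
  · have h1 : q ∣ (∏ p ∈ S, (p : ℤ)) * r := (dvd_add_right ha).1 hq1
    rcases hq.dvd_or_dvd h1 with h2 | h2
    · rw [Prime.dvd_finsetProd_iff hq] at h2
      obtain ⟨p, hp, hqp⟩ := h2
      rw [hS, Finset.mem_filter] at hp
      have hpp : p.Prime := Nat.prime_of_mem_primeFactors hp.1
      have h3 : q.natAbs = p := by
        have : q.natAbs ∣ p := by
          have := Int.natAbs_dvd_natAbs.2 hqp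
          simpa using this
        exact (Nat.prime_dvd_prime_iff_eq hqn hpp).1 this
      apply hp.2
      rw [← h3, ← key]
      exact ha
    · apply hq.not_isUnit
      apply isUnit_of_dvd_one
      rw [← h]
      exact dvd_add (dvd_add (ha.mul_left _) (h2.mul_left _)) (hq2.mul_left _)
  · have h1 : q.natAbs ∈ S := by
      rw [hS, Finset.mem_filter]
      exact ⟨hmem, fun h => ha ((key a).2 h)⟩
    have h2 : q ∣ ∏ p ∈ S, (p : ℤ) := by
      rw [key]
      exact Finset.dvd_prod_of_mem (fun p : ℕ => (p : ℤ)) h1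
    exact ha ((dvd_add_left (h2.mul_right r)).1 hq1)

theorem cop2 (a b r h : ℤ) (H : ∃ x y z w : ℤ, x * a + y * b + z * r + w * h = 1) :
    ∃ t0 t1 x y z : ℤ, x * (a + t0 * r) + y * (b + t1 * r) + z * h = 1 := by
  obtain ⟨x, y, z, w, H⟩ := H
  by_cases hr : r = 0
  · refine ⟨0, 0, x, y, w, ?_⟩
    subst hr
    linarith
  · obtain ⟨t1, ht1⟩ : ∃ t1 : ℤ, b + t1 * r ≠ 0 := by
      by_cases hb : b = 0
      · exact ⟨1, by simpa [hb] using hr⟩
      · exact ⟨0, by simpa using hb⟩
    set g : ℤ := (Int.gcd (b + t1 * r) h : ℤ) with hg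
    have hg0 : g ≠ 0 := by
      rw [hg]
      intro h0
      have := Int.gcd_eq_zero_iff.1 (by exact_mod_cast h0)
      exact ht1 this.1
    have hg1 : g ∣ b + t1 * r := Int.gcd_dvd_left ..
    have hg2 : g ∣ h := Int.gcd_dvd_right ..
    obtain ⟨u, hu⟩ := hg1
    obtain ⟨v, hv⟩ := hg2
    obtain ⟨t0, ht0⟩ := cop a r g hg0 ⟨x, z - y * t1, y * u + w * v, by
      have : y * b = y * (g * u) - y * t1 * r := by rw [← hu]; ring
      have h2 : w * h = w * (g * v) := by rw [← hv]
      linear_combination H - this - h2⟩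
    obtain ⟨c, d, hcd⟩ := ht0
    have hb := Int.gcd_eq_gcd_ab (b + t1 * r) h
    rw [← hg] at hb
    refine ⟨t0, t1, c, d * Int.gcdA (b + t1 * r) h, d * Int.gcdB (b + t1 * r) h, ?_⟩
    linear_combination hcd - d * hb

/-! ## Elementary operations -/

section
variable {n : ℕ}

def Rel (m : ℤ) (A B : SLn n) : Prop := ∃ E₁ ∈ EE n m, ∃ E₂ ∈ EE n m, A = E₁ * B * E₂

theorem Rel.refl (m : ℤ) (A : SLn n) : Rel m A A :=
  ⟨1, one_mem _, 1, one_mem _, by simp⟩

theorem Rel.trans {m : ℤ} {A B C : SLn n} (h1 : Rel m A B) (h2 : Rel m B C) :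
    Rel m A C := by
  obtain ⟨E₁, k1, E₂, k2, rfl⟩ := h1
  obtain ⟨F₁, k3, F₂, k4, rfl⟩ := h2
  exact ⟨E₁ * F₁, mul_mem k1 k3, F₂ * E₂, mul_mem k4 k2, by group⟩

theorem tv_mem (m : ℤ) {i j : Fin n} (h : i ≠ j) (t : ℤ) :
    SpecialLinearGroup.transvection h (m * t) ∈ EE n m :=
  Subgroup.subset_closure ⟨i, j, h, t, rfl⟩

/-- a state of the reduction -/
def Stt (m : ℤ) (k : ℕ) (A B : SLn n) : Prop := Rel m A B ∧ Blk k B ∧ Cong m B

theorem colop {m : ℤ} {k : ℕ} {A B : SLn n} (hB : Stt m k A B) {i j : Fin n} (hi : (i : ℕ) < k)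
    (hj : (j : ℕ) < k) (hij : i ≠ j) (t : ℤ) : ∃ B' : SLn n, Stt m k A B' ∧
      ∀ a b, B'.1 a b = B.1 a b + if b = j then m * t * B.1 a i else 0 := by
  have hf : ∀ a b, (B * SpecialLinearGroup.transvection hij (m * t)).1 a b
      = B.1 a b + if b = j then m * t * B.1 a i else 0 := by
    intro a b
    by_cases hb : b = j
    · subst hb
      rw [if_pos rfl]
      exact Matrix.mul_transvection_apply_same i b a (m * t) B.1
    · rw [if_neg hb, add_zero]
      exact Matrix.mul_transvection_apply_of_ne i j a b hb (m * t) B.1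
  refine ⟨B * SpecialLinearGroup.transvection hij (m * t), ⟨?_, ?_, ?_⟩, hf⟩
  · refine hB.1.trans ⟨1, one_mem _, (SpecialLinearGroup.transvection hij (m * t))⁻¹,
      inv_mem (tv_mem m hij t), by group⟩
  · intro a b hab
    rw [hf, hB.2.1 a b hab]
    by_cases hb : b = j
    · rw [if_pos hb]
      have ha : k ≤ (a : ℕ) := by
        rcases hab with h | h
        · exact h
        · rw [hb] at h; omega
      have h0 : B.1 a i = 0 := by
        rw [hB.2.1 a i (Or.inl ha), Matrix.one_apply_ne]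
        rintro rfl
        omega
      rw [h0, mul_zero, add_zero]
    · rw [if_neg hb, add_zero]
  · intro a b
    rw [hf]
    have h1 := hB.2.2 a b
    by_cases hb : b = j
    · rw [if_pos hb]
      have : B.1 a b + m * t * B.1 a i - (1 : Matrix (Fin n) (Fin n) ℤ) a b
        = (B.1 a b - (1 : Matrix (Fin n) (Fin n) ℤ) a b) + m * (t * B.1 a i) := by ring
      rw [this]
      exact dvd_add h1 (Dvd.intro _ rfl)
    · rw [if_neg hb, add_zero]
      exact h1

theorem rowop {m : ℤ} {k : ℕ} {A B : SLn n} (hB : Stt m k A B) {i j : Fin n} (hi : (i : ℕ) < k)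
    (hj : (j : ℕ) < k) (hij : i ≠ j) (t : ℤ) : ∃ B' : SLn n, Stt m k A B' ∧
      ∀ a b, B'.1 a b = B.1 a b + if a = i then m * t * B.1 j b else 0 := by
  have hf : ∀ a b, (SpecialLinearGroup.transvection hij (m * t) * B).1 a b
      = B.1 a b + if a = i then m * t * B.1 j b else 0 := by
    intro a b
    by_cases ha : a = i
    · subst ha
      rw [if_pos rfl]
      exact Matrix.transvection_mul_apply_same a j b (m * t) B.1
    · rw [if_neg ha, add_zero]
      exact Matrix.transvection_mul_apply_of_ne i j a b ha (m * t) B.1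
  refine ⟨SpecialLinearGroup.transvection hij (m * t) * B, ⟨?_, ?_, ?_⟩, hf⟩
  · refine hB.1.trans ⟨(SpecialLinearGroup.transvection hij (m * t))⁻¹,
      inv_mem (tv_mem m hij t), 1, one_mem _, by group⟩
  · intro a b hab
    rw [hf, hB.2.1 a b hab]
    by_cases ha : a = i
    · rw [if_pos ha]
      have hb : k ≤ (b : ℕ) := by
        rcases hab with h | h
        · rw [ha] at h; omega
        · exact h
      have h0 : B.1 j b = 0 := by
        rw [hB.2.1 j b (Or.inr hb), Matrix.one_apply_ne]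
        rintro rfl
        omega
      rw [h0, mul_zero, add_zero]
    · rw [if_neg ha, add_zero]
  · intro a b
    rw [hf]
    have h1 := hB.2.2 a b
    by_cases ha : a = i
    · rw [if_pos ha]
      have : B.1 a b + m * t * B.1 j b - (1 : Matrix (Fin n) (Fin n) ℤ) a b
        = (B.1 a b - (1 : Matrix (Fin n) (Fin n) ℤ) a b) + m * (t * B.1 j b) := by ring
      rw [this]
      exact dvd_add h1 (Dvd.intro _ rfl)
    · rw [if_neg ha, add_zero]
      exact h1

/-- add a combination of columns to the column `l` -/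
theorem colsum {m : ℤ} {k : ℕ} {A B : SLn n} (hB : Stt m k A B) {l : Fin n} (hl : (l : ℕ) < k)
    (s : Fin n → ℤ) (S : Finset (Fin n)) (hS : ∀ j ∈ S, (j : ℕ) < k ∧ j ≠ l) :
    ∃ B' : SLn n, Stt m k A B' ∧
      ∀ a b, B'.1 a b = B.1 a b + if b = l then ∑ j ∈ S, m * s j * B.1 a j else 0 := by
  classical
  induction S using Finset.induction_on with
  | empty => exact ⟨B, hB, by simp⟩
  | insert j S hj ih =>
    obtain ⟨B1, h1, h2⟩ := ih (fun i hi => hS i (Finset.mem_insert_of_mem hi))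
    obtain ⟨hjk, hjl⟩ := hS j (Finset.mem_insert_self _ _)
    obtain ⟨B2, h3, h4⟩ := colop h1 hjk hl hjl (s j)
    refine ⟨B2, h3, ?_⟩
    intro a b
    rw [h4, h2 a b, h2 a j, if_neg hjl, add_zero, Finset.sum_insert hj]
    by_cases hb : b = l
    · rw [if_pos hb, if_pos hb, if_pos hb]; ring
    · rw [if_neg hb, if_neg hb, if_neg hb]; ring

/-- add multiples of the column `l` to the other columns -/
theorem colclear {m : ℤ} {k : ℕ} {A B : SLn n} (hB : Stt m k A B) {l : Fin n} (hl : (l : ℕ) < k)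
    (s : Fin n → ℤ) (S : Finset (Fin n)) (hS : ∀ j ∈ S, (j : ℕ) < k ∧ j ≠ l) :
    ∃ B' : SLn n, Stt m k A B' ∧
      ∀ a b, B'.1 a b = B.1 a b + if b ∈ S then m * s b * B.1 a l else 0 := by
  classical
  induction S using Finset.induction_on with
  | empty => exact ⟨B, hB, by simp⟩
  | insert j S hj ih =>
    have hlS : l ∉ S := fun h => (hS l (Finset.mem_insert_of_mem h)).2 rfl
    obtain ⟨B1, h1, h2⟩ := ih (fun i hi => hS i (Finset.mem_insert_of_mem hi))
    obtain ⟨hjk, hjl⟩ := hS j (Finset.mem_insert_self _ _)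
    obtain ⟨B2, h3, h4⟩ := colop h1 hl hjk hjl.symm (s j)
    refine ⟨B2, h3, ?_⟩
    intro a b
    rw [h4, h2 a b, h2 a l, if_neg hlS, add_zero]
    by_cases hb : b = j
    · subst hb
      rw [if_neg hj, if_pos rfl, if_pos (Finset.mem_insert_self _ _)]; ring
    · rw [if_neg hb, add_zero]
      congr 1
      simp [Finset.mem_insert, hb]

/-- add multiples of the row `l` to the other rows -/
theorem rowclear {m : ℤ} {k : ℕ} {A B : SLn n} (hB : Stt m k A B) {l : Fin n} (hl : (l : ℕ) < k)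
    (s : Fin n → ℤ) (S : Finset (Fin n)) (hS : ∀ j ∈ S, (j : ℕ) < k ∧ j ≠ l) :
    ∃ B' : SLn n, Stt m k A B' ∧
      ∀ a b, B'.1 a b = B.1 a b + if a ∈ S then m * s a * B.1 l b else 0 := by
  classical
  induction S using Finset.induction_on with
  | empty => exact ⟨B, hB, by simp⟩
  | insert j S hj ih =>
    have hlS : l ∉ S := fun h => (hS l (Finset.mem_insert_of_mem h)).2 rfl
    obtain ⟨B1, h1, h2⟩ := ih (fun i hi => hS i (Finset.mem_insert_of_mem hi))
    obtain ⟨hjk, hjl⟩ := hS j (Finset.mem_insert_self _ _)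
    obtain ⟨B2, h3, h4⟩ := rowop h1 hjk hl hjl (s j)
    refine ⟨B2, h3, ?_⟩
    intro a b
    rw [h4, h2 a b, h2 l b, if_neg hlS, add_zero]
    by_cases ha : a = j
    · subst ha
      rw [if_neg hj, if_pos rfl, if_pos (Finset.mem_insert_self _ _)]; ring
    · rw [if_neg ha, add_zero]
      congr 1
      simp [Finset.mem_insert, ha]

end

end Red

open Red in
theorem t_red : StRed := by
  classical
  intro n k m hk hkn hm A hA hC
  have hm0 : m ≠ 0 := by omega
  -- the indices
  set l : Fin n := ⟨k, by omega⟩ with hl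
  set i0 : Fin n := ⟨0, by omega⟩ with hi0
  set i1 : Fin n := ⟨1, by omega⟩ with hi1
  have hlk : (l : ℕ) < k + 1 := by simp [hl]
  have h0k : (i0 : ℕ) < k + 1 := by simp [hi0]
  have h1k : (i1 : ℕ) < k + 1 := by simp [hi1]; omega
  have h0l : i0 ≠ l := by rw [hi0, hl, Ne, Fin.mk.injEq]; omega
  have h1l : i1 ≠ l := by rw [hi1, hl, Ne, Fin.mk.injEq]; omega
  have h01 : i0 ≠ i1 := by rw [hi0, hi1, Ne, Fin.mk.injEq]; omega
  -- the set of the other indices of the block
  set S : Finset (Fin n) := Finset.univ.filter (fun j : Fin n => (j : ℕ) < k) with hS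
  have hSm : ∀ j : Fin n, j ∈ S ↔ (j : ℕ) < k := by intro j; simp [hS]
  have hSl : ∀ j ∈ S, (j : ℕ) < k + 1 ∧ j ≠ l := by
    intro j hj
    rw [hSm] at hj
    exact ⟨by omega, by rintro rfl; simp [hl] at hj⟩
  have h0S : i0 ∈ S := by rw [hSm]; simp [hi0]; omega
  have h1S : i1 ∈ S := by rw [hSm]; simp [hi1]; omega
  have hlS : l ∉ S := by rw [hSm]; simp [hl]
  -- start
  have hCm : Cong m A := fun i j => (Dvd.intro _ (by ring : m * m = m ^ 2)).trans (hC i j)
  have hst : Stt m (k + 1) A A := ⟨Rel.refl m A, hA, hCm⟩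
  -- the last row
  set r : ℤ := A.1 l l with hr
  obtain ⟨q, hq⟩ : ∃ q, r - 1 = m ^ 2 * q := by
    have := hC l l
    rw [Matrix.one_apply_eq] at this
    exact this
  have hrow : ∀ j : Fin n, ∃ c : ℤ, j ∈ S → A.1 l j = m * c := by
    intro j
    by_cases hj : j ∈ S
    · have := hCm l j
      rw [Matrix.one_apply_ne (hSl j hj).2.symm, sub_zero] at this
      obtain ⟨c, hc⟩ := this
      exact ⟨c, fun _ => hc⟩
    · exact ⟨0, fun h => absurd h hj⟩
  choose c hc using hrow
  -- Bezout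
  have hbz : ∑ j ∈ S, A.1 l j * (A⁻¹).1 j l + r * (A⁻¹).1 l l = 1 := by
    have h1 : (A * A⁻¹).1 l l = 1 := by
      rw [mul_inv_cancel]
      simp
    have h2 : (A * A⁻¹).1 l l = ∑ j, A.1 l j * (A⁻¹).1 j l :=
      Matrix.mul_apply (M := A.1) (N := (A⁻¹).1)
    have h1 := h2.symm.trans h1
    refine Eq.trans ?_ h1
    have h3 : (∑ j ∈ insert l S, A.1 l j * (A⁻¹).1 j l) = ∑ j, A.1 l j * (A⁻¹).1 j l := by
      apply Finset.sum_subset (Finset.subset_univ _)
      intro j _ hj
      have hj1 : k + 1 ≤ (j : ℕ) := by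
        rw [Finset.mem_insert, not_or, hSm] at hj
        have : (j : ℕ) ≠ k := fun h => hj.1 (Fin.ext h)
        omega
      rw [hA l j (Or.inr hj1), Matrix.one_apply_ne, zero_mul]
      rintro rfl
      omega
    rw [← h3, Finset.sum_insert hlS]
    ring
  set y : Fin n → ℤ := fun j => m * (A⁻¹).1 j l with hy
  have hbz2 : ∑ j ∈ S, c j * y j + r * (A⁻¹).1 l l = 1 := by
    refine Eq.trans ?_ hbz
    congr 1
    apply Finset.sum_congr rfl
    intro j hj
    rw [hc j hj, hy]
    ring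
  set S2 : Finset (Fin n) := (S.erase i0).erase i1 with hS2
  have hsum : ∀ f : Fin n → ℤ, ∑ j ∈ S, f j = f i0 + f i1 + ∑ j ∈ S2, f j := by
    intro f
    rw [← Finset.add_sum_erase S f h0S, ← Finset.add_sum_erase (S.erase i0) f
      (Finset.mem_erase.2 ⟨h01.symm, h1S⟩)]
    ring
  rw [hsum] at hbz2
  obtain ⟨t0, t1, x0, x1, z, hz⟩ := cop2 (c i0) (c i1) r (∑ j ∈ S2, c j * y j)
    ⟨y i0, y i1, (A⁻¹).1 l l, 1, by linear_combination hbz2⟩
  -- step 1
  obtain ⟨B1, hB1, hB1f⟩ := colop hst hlk h0k h0l.symm t0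
  obtain ⟨B2, hB2, hB2f⟩ := colop hB1 hlk h1k h1l.symm t1
  have e0 : B2.1 l i0 = m * (c i0 + t0 * r) := by
    rw [hB2f, if_neg h01, hB1f, if_pos rfl, hc i0 h0S, ← hr]
    ring
  have e1 : B2.1 l i1 = m * (c i1 + t1 * r) := by
    rw [hB2f, if_pos rfl, hB1f, if_neg h01.symm, hB1f, if_neg h0l.symm, hc i1 h1S, ← hr]
    ring
  have er : B2.1 l l = r := by
    rw [hB2f, if_neg h1l.symm, hB1f, if_neg h0l.symm, ← hr]
    ring
  have e2 : ∀ j ∈ S2, B2.1 l j = m * c j := by
    intro j hj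
    rw [hS2, Finset.mem_erase, Finset.mem_erase] at hj
    rw [hB2f, if_neg hj.1, hB1f, if_neg hj.2.1, hc j hj.2.2]
    ring
  -- step 2
  set s : Fin n → ℤ := fun j => -q * (if j = i0 then x0 else if j = i1 then x1 else z * y j) with hs
  obtain ⟨B3, hB3, hB3f⟩ := colsum hB2 hlk s S hSl
  have e3 : B3.1 l l = 1 := by
    rw [hB3f, if_pos rfl, er, hsum]
    have hz0 : s i0 = -q * x0 := by simp [hs]
    have hz1 : s i1 = -q * x1 := by simp [hs, h01.symm]
    have hz2 : ∑ j ∈ S2, m * s j * B2.1 l j = m ^ 2 * (-q) * z * ∑ j ∈ S2, c j * y j := by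
      rw [Finset.mul_sum]
      apply Finset.sum_congr rfl
      intro j hj
      rw [e2 j hj]
      rw [hS2, Finset.mem_erase, Finset.mem_erase] at hj
      have : s j = -q * (z * y j) := by simp [hs, hj.1, hj.2.1]
      rw [this]
      ring
    rw [hz2, hz0, hz1, e0, e1]
    linear_combination (-m ^ 2 * q) * hz + hq
  -- step 3
  have e4 : ∀ j : Fin n, ∃ d : ℤ, j ∈ S → B3.1 l j = m * d := by
    intro j
    by_cases hj : j ∈ S
    · have := hB3.2.2 l j
      rw [Matrix.one_apply_ne (hSl j hj).2.symm, sub_zero] at this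
      obtain ⟨d, hd⟩ := this
      exact ⟨d, fun _ => hd⟩
    · exact ⟨0, fun h => absurd h hj⟩
  choose d hd using e4
  obtain ⟨B4, hB4, hB4f⟩ := colclear hB3 hlk (fun j => -d j) S hSl
  have e5 : B4.1 l l = 1 := by
    rw [hB4f, if_neg hlS, e3, add_zero]
  have e6 : ∀ j ∈ S, B4.1 l j = 0 := by
    intro j hj
    rw [hB4f, if_pos hj, hd j hj, e3]
    ring
  -- step 4
  have e7 : ∀ j : Fin n, ∃ d : ℤ, j ∈ S → B4.1 j l = m * d := by
    intro j
    by_cases hj : j ∈ S
    · have := hB4.2.2 j l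
      rw [Matrix.one_apply_ne (hSl j hj).2, sub_zero] at this
      obtain ⟨d, hd⟩ := this
      exact ⟨d, fun _ => hd⟩
    · exact ⟨0, fun h => absurd h hj⟩
  choose d' hd' using e7
  obtain ⟨B5, hB5, hB5f⟩ := rowclear hB4 hlk (fun j => -d' j) S hSl
  have e8 : B5.1 l l = 1 := by
    rw [hB5f, if_neg hlS, e5, add_zero]
  have e9 : ∀ j ∈ S, B5.1 l j = 0 := by
    intro j hj
    rw [hB5f, if_neg hlS, e6 j hj, add_zero]
  have e10 : ∀ j ∈ S, B5.1 j l = 0 := by
    intro j hj
    rw [hB5f, if_pos hj, hd' j hj, e5]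
    ring
  obtain ⟨⟨E1, hE1, E2, hE2, hE⟩, hb1, hb2⟩ := hB5
  refine ⟨E1, hE1, E2, hE2, B5, ?_, hb2, hE⟩
  intro i j hij
  by_cases hi : k + 1 ≤ (i : ℕ) ∨ k + 1 ≤ (j : ℕ)
  · exact hb1 i j hi
  · rw [not_or, not_le, not_le] at hi
    rcases hij with h | h
    · have hil : i = l := Fin.ext (by simp [hl]; omega)
      rw [hil]
      by_cases hj : j = l
      · rw [hj, e8, Matrix.one_apply_eq]
      · have hjS : j ∈ S := by
          rw [hSm]
          have : (j : ℕ) ≠ k := fun h => hj (Fin.ext h)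
          omega
        rw [e9 j hjS, Matrix.one_apply_ne (Ne.symm hj)]
    · have hjl : j = l := Fin.ext (by simp [hl]; omega)
      rw [hjl]
      by_cases hi' : i = l
      · rw [hi', e8, Matrix.one_apply_eq]
      · have hiS : i ∈ S := by
          rw [hSm]
          have : (i : ℕ) ≠ k := fun h => hi' (Fin.ext h)
          omega
        rw [e10 i hiS, Matrix.one_apply_ne hi']

end Pool.Agent.TH610.CSP
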