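import Pool.Agent.H12.CSP.B.TH610.CSP.Stm

set_option autoImplicit false

namespace Pool.Agent.TH610.CSP

theorem t_sep : StSep := by
  intro ι _ D _ _ A L e he _ hA
  have h1 : Module.Finite ℤ (Additive ((ι → D) ⧸ L)) :=
    Module.Finite.iff_addGroup_fg.mpr inferInstance
  have h2 : IsNoetherian ℤ (Additive ((ι → D) ⧸ L)) :=
    isNoetherian_of_isNoetherianRing_of_finite ℤ _
  let T : Submodule ℤ (Additive ((ι → D) ⧸ L)) := Submodule.torsion ℤ _
  have h3 : Module.Finite ℤ T := inferInstance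
  have h4 : Finite T := Module.finite_of_fg_torsion T (Submodule.torsion_isTorsion)
  refine ⟨Nat.card T, Nat.card_pos, fun y hy => ?_⟩
  have hye : (y ^ Nat.card T) ^ e ∈ L := hA _ hy
  have hpos : 0 < Nat.card T * e := Nat.mul_pos Nat.card_pos he
  set w : Additive ((ι → D) ⧸ L) := Additive.ofMul (QuotientGroup.mk y : (ι → D) ⧸ L) with hw
  have hwT : w ∈ T := by
    show w ∈ Submodule.torsion ℤ _
    rw [Submodule.mem_torsion_iff]
    refine ⟨⟨((Nat.card T * e : ℕ) : ℤ), mem_nonZeroDivisors_of_ne_zero (by exact_mod_cast hpos.ne')⟩, ?_⟩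
    show ((Nat.card T * e : ℕ) : ℤ) • w = 0
    rw [natCast_zsmul, hw, ← ofMul_pow, ← QuotientGroup.mk_pow]
    rw [ofMul_eq_zero, QuotientGroup.eq_one_iff, pow_mul]
    exact hye
  have h5 : Nat.card T • (⟨w, hwT⟩ : T) = 0 := card_nsmul_eq_zero'
  have h6 : Nat.card T • w = 0 := congrArg (T.subtype) h5
  rw [hw, ← ofMul_pow, ← QuotientGroup.mk_pow, ofMul_eq_zero, QuotientGroup.eq_one_iff] at h6
  exact h6

end Pool.Agent.TH610.CSP

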