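import Pool.Agent.H12.CSP.B.TH610.CSP.Stm
import Pool.Agent.H12.CSP.S.Helper111.EN.NS

/-! # One step down the Johnson filtration -/

set_option autoImplicit false

open scoped commutatorElement

namespace Pool.Agent.TH610.CSP

namespace Step

/-- the automorphisms which act trivially on the cosets of `K` -/
def TT {n : ℕ} (K : Subgroup (FF n)) : Subgroup (MulAut (FF n)) where
  carrier := {ψ | Triv K ψ}
  one_mem' := by
    intro x
    simp
  mul_mem' := by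
    intro ψ φ hψ hφ x
    have h : (ψ * φ) x * x⁻¹ = (ψ (φ x) * (φ x)⁻¹) * (φ x * x⁻¹) := by
      rw [MulAut.mul_apply]; group
    rw [h]
    exact K.mul_mem (hψ _) (hφ _)
  inv_mem' := by
    intro ψ hψ x
    have h := K.inv_mem (hψ (ψ⁻¹ x))
    rw [MulAut.apply_inv_self, mul_inv_rev, inv_inv] at h
    exact h

theorem mem_TT {n : ℕ} {K : Subgroup (FF n)} {ψ : MulAut (FF n)} : ψ ∈ TT K ↔ Triv K ψ := Iff.rfl

/-- the centre of a group is commutative -/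
noncomputable instance cg {G : Type*} [Group G] : CommGroup (Subgroup.center G) where
  mul_comm a b := Subtype.ext (Subgroup.mem_center_iff.1 b.2 a)

theorem pow_idx {G : Type*} [Group G] (N : Subgroup G) (hN : N.Normal) (g : G) :
    g ^ N.index ∈ N := N.pow_index_mem g

section
variable {n : ℕ} {G0 G1 : Subgroup (FF n)} [hn : G1.Normal]

theorem pi_central (h01 : ∀ x ∈ G0, ∀ y : FF n, ⁅x, y⁆ ∈ G1) {x : FF n} (hx : x ∈ G0) :
    QuotientGroup.mk' G1 x ∈ Subgroup.center (FF n ⧸ G1) := by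
  rw [Subgroup.mem_center_iff]
  intro g
  obtain ⟨y, rfl⟩ := QuotientGroup.mk'_surjective G1 g
  rw [← map_mul, ← map_mul]
  have h2 : (QuotientGroup.mk' G1) ⁅x, y⁆ = 1 := by
    rw [← MonoidHom.mem_ker, QuotientGroup.ker_mk']
    exact h01 x hx y
  have h3 : x * y = ⁅x, y⁆ * (y * x) := by
    rw [commutatorElement_def]; group
  rw [h3, map_mul _ ⁅x, y⁆, h2, one_mul]

/-- the homomorphism `x ↦ ψ(x) x⁻¹` modulo `gam n (c + 1)` -/
noncomputable def del (h01 : ∀ x ∈ G0, ∀ y : FF n, ⁅x, y⁆ ∈ G1) (ψ : TT G0) :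
    FF n →* Subgroup.center (FF n ⧸ G1) where
  toFun x := ⟨QuotientGroup.mk' G1 ((ψ : MulAut (FF n)) x * x⁻¹), pi_central h01 (ψ.2 x)⟩
  map_one' := by
    apply Subtype.ext
    show QuotientGroup.mk' G1 ((ψ : MulAut (FF n)) 1 * 1⁻¹) = 1
    rw [map_one, inv_one, mul_one, map_one]
  map_mul' x y := by
    apply Subtype.ext
    show QuotientGroup.mk' G1 ((ψ : MulAut (FF n)) (x * y) * (x * y)⁻¹) =
      QuotientGroup.mk' G1 ((ψ : MulAut (FF n)) x * x⁻¹) *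
        QuotientGroup.mk' G1 ((ψ : MulAut (FF n)) y * y⁻¹)
    have h1 := Subgroup.mem_center_iff.1 (pi_central h01 (ψ.2 y)) (QuotientGroup.mk' G1 x⁻¹)
    have h2 : (ψ : MulAut (FF n)) (x * y) * (x * y)⁻¹ =
        (ψ : MulAut (FF n)) x * (((ψ : MulAut (FF n)) y * y⁻¹) * x⁻¹) := by
      rw [map_mul]; group
    rw [h2, map_mul (QuotientGroup.mk' G1) ((ψ : MulAut (FF n)) x), map_mul (QuotientGroup.mk' G1) _ x⁻¹,
      ← h1, ← mul_assoc, ← map_mul]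

theorem del_val (h01 : ∀ x ∈ G0, ∀ y : FF n, ⁅x, y⁆ ∈ G1) (ψ : TT G0) (x : FF n) :
    ((del h01 ψ x : Subgroup.center (FF n ⧸ G1)) : FF n ⧸ G1) =
      QuotientGroup.mk' G1 ((ψ : MulAut (FF n)) x * x⁻¹) := rfl

theorem del_comm (h01 : ∀ x ∈ G0, ∀ y : FF n, ⁅x, y⁆ ∈ G1) (hc : G0 ≤ commutator (FF n))
    (ψ : TT G0) {x : FF n} (hx : x ∈ G0) : del h01 ψ x = 1 :=
  Abelianization.commutator_subset_ker (del h01 ψ) (hc hx)

/-- the Johnson homomorphism -/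
noncomputable def tau (h01 : ∀ x ∈ G0, ∀ y : FF n, ⁅x, y⁆ ∈ G1) (hc : G0 ≤ commutator (FF n)) :
    TT G0 →* (Fin n → Subgroup.center (FF n ⧸ G1)) where
  toFun ψ i := del h01 ψ (FreeGroup.of i)
  map_one' := by
    funext i
    apply Subtype.ext
    show QuotientGroup.mk' G1 ((1 : MulAut (FF n)) (FreeGroup.of i) * (FreeGroup.of i)⁻¹) = 1
    rw [MulAut.one_apply, mul_inv_cancel, map_one]
  map_mul' ψ φ := by
    funext i
    show del h01 (ψ * φ) (FreeGroup.of i) = del h01 ψ (FreeGroup.of i) * del h01 φ (FreeGroup.of i)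
    obtain ⟨x, hx⟩ : ∃ x : FF n, x = FreeGroup.of i := ⟨_, rfl⟩
    rw [← hx]
    have h1 : del h01 ψ ((φ : MulAut (FF n)) x) = del h01 ψ x := by
      have h2 : (φ : MulAut (FF n)) x = ((φ : MulAut (FF n)) x * x⁻¹) * x := by group
      rw [h2, map_mul, del_comm h01 hc ψ (φ.2 x), one_mul]
    rw [← h1]
    apply Subtype.ext
    rw [Subgroup.coe_mul, del_val, del_val, del_val, ← map_mul]
    congr 1
    rw [Subgroup.coe_mul, MulAut.mul_apply]
    group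

theorem tau_apply (h01 : ∀ x ∈ G0, ∀ y : FF n, ⁅x, y⁆ ∈ G1) (hc : G0 ≤ commutator (FF n))
    (ψ : TT G0) (i : Fin n) : tau h01 hc ψ i = del h01 ψ (FreeGroup.of i) := rfl

theorem triv_of_tau (h01 : ∀ x ∈ G0, ∀ y : FF n, ⁅x, y⁆ ∈ G1) (hc : G0 ≤ commutator (FF n))
    {ψ : TT G0} (h : tau h01 hc ψ = 1) : Triv G1 (ψ : MulAut (FF n)) := by
  have h1 : del h01 ψ = 1 := by
    apply FreeGroup.ext_hom
    intro i
    exact congrFun h i
  intro x
  have h2 : ((del h01 ψ x : Subgroup.center (FF n ⧸ G1)) : FF n ⧸ G1) = 1 := by rw [h1]; rfl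
  rw [del_val, ← MonoidHom.mem_ker, QuotientGroup.ker_mk'] at h2
  exact h2

/-- the step, in general form -/
theorem gen (h01 : ∀ x ∈ G0, ∀ y : FF n, ⁅x, y⁆ ∈ G1) (hc : G0 ≤ commutator (FF n))
    [hfg : Group.FG (Subgroup.center (FF n ⧸ G1))] (hs : StSep)
    (hr : ∀ M : ℕ, 0 < M → ∃ K : Subgroup (FF n), K.Characteristic ∧
      K.FiniteIndex ∧ ∀ x ∈ K, x ∈ G0 → ∃ y ∈ G0, x * (y ^ M)⁻¹ ∈ G1)
    (N : Subgroup (MulAut (FF n))) (hN : N.Normal) (hNf : N.FiniteIndex) (K1 : Subgroup (FF n))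
    (hK1 : ∀ ψ : MulAut (FF n), Triv K1 ψ → Triv G1 ψ → ψ ∈ N) :
    ∃ K2 : Subgroup (FF n), K2.Characteristic ∧ K2.FiniteIndex ∧
      ∀ ψ : MulAut (FF n), Triv K1 ψ → Triv K2 ψ → Triv G0 ψ → ψ ∈ N := by
  obtain ⟨A, hA⟩ : ∃ A, A = ((TT K1).subgroupOf (TT G0)).map (tau h01 hc) := ⟨_, rfl⟩
  obtain ⟨L, hL⟩ : ∃ L, L = ((TT K1 ⊓ N).subgroupOf (TT G0)).map (tau h01 hc) := ⟨_, rfl⟩
  have hLA : L ≤ A := by
    rw [hL, hA]
    apply Subgroup.map_mono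
    intro ψ hψ
    rw [Subgroup.mem_subgroupOf] at hψ ⊢
    exact hψ.1
  have hAL : ∀ a ∈ A, a ^ N.index ∈ L := by
    rw [hL, hA]
    rintro _ ⟨ψ, hψ, rfl⟩
    refine ⟨ψ ^ N.index, ?_, map_pow _ _ _⟩
    rw [SetLike.mem_coe, Subgroup.mem_subgroupOf] at hψ ⊢
    rw [Subgroup.coe_pow]
    have hq : (ψ : MulAut (FF n)) ^ N.index ∈ N := pow_idx N hN _
    exact ⟨Subgroup.pow_mem _ hψ _, hq⟩
  obtain ⟨M, hM, hM'⟩ := hs (Fin n) (Subgroup.center (FF n ⧸ G1)) A L N.index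
    (Nat.pos_of_ne_zero hNf.index_ne_zero) hLA hAL
  obtain ⟨K2, hK2c, hK2f, hK2⟩ := hr M hM
  refine ⟨K2, hK2c, hK2f, ?_⟩
  intro ψ hψ1 hψ2 hψc
  choose y hy hy' using fun i : Fin n =>
    hK2 _ (hψ2 (FreeGroup.of i)) (hψc (FreeGroup.of i))
  obtain ⟨ψ', hψ'⟩ : ∃ ψ' : TT G0, (ψ' : MulAut (FF n)) = ψ := ⟨⟨ψ, hψc⟩, rfl⟩
  have h1 : tau h01 hc ψ' = (fun i => (⟨QuotientGroup.mk' G1 (y i), pi_central h01 (hy i)⟩ :
      Subgroup.center (FF n ⧸ G1))) ^ M := by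
    funext i
    apply Subtype.ext
    rw [tau_apply, del_val, hψ', Pi.pow_apply, Subgroup.coe_pow]
    rw [← map_pow, ← mul_inv_eq_one, ← map_inv, ← map_mul, ← MonoidHom.mem_ker,
      QuotientGroup.ker_mk']
    exact hy' i
  have h2 : tau h01 hc ψ' ∈ A := by
    rw [hA]
    refine ⟨ψ', ?_, rfl⟩
    rw [SetLike.mem_coe, Subgroup.mem_subgroupOf, hψ']
    exact hψ1
  rw [h1] at h2
  have h2' := hM' _ h2
  rw [hL] at h2'
  obtain ⟨φ, hφ, hφ'⟩ := h2'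
  rw [← h1] at hφ'
  rw [SetLike.mem_coe, Subgroup.mem_subgroupOf] at hφ
  have h3 : tau h01 hc (φ⁻¹ * ψ') = 1 := by
    rw [map_mul, map_inv, hφ', inv_mul_cancel]
  have h4 := triv_of_tau h01 hc h3
  have h5 : Triv K1 ((φ⁻¹ * ψ' : TT G0) : MulAut (FF n)) := by
    rw [← mem_TT, Subgroup.coe_mul, Subgroup.coe_inv, hψ']
    exact Subgroup.mul_mem _ (Subgroup.inv_mem _ hφ.1) hψ1
  have h6 := hK1 _ h5 h4
  have h7 : ψ = (φ : MulAut (FF n)) * ((φ⁻¹ * ψ' : TT G0) : MulAut (FF n)) := by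
    rw [Subgroup.coe_mul, Subgroup.coe_inv, mul_inv_cancel_left, hψ']
  rw [h7]
  exact N.mul_mem hφ.2 h6

end

theorem nilp (n c : ℕ) : Group.IsNilpotent (FF n ⧸ gam n c) := by
  rw [Subgroup.nilpotent_iff_lowerCentralSeries]
  refine ⟨c, ?_⟩
  have h := Subgroup.map_lowerCentralSeries (⊤ : Subgroup (FF n)) (QuotientGroup.mk' (gam n c)) c
  rw [← MonoidHom.range_eq_map, MonoidHom.range_eq_top.2 (QuotientGroup.mk'_surjective _)] at h
  rw [← h, Subgroup.map_eq_bot_iff, QuotientGroup.ker_mk']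

theorem fgc (n c : ℕ) : Group.FG (Subgroup.center (FF n ⧸ gam n c)) := by
  have h1 : Group.FG (FF n ⧸ gam n c) := QuotientGroup.fg _
  have h := Pool.Agent.Helper111.EN.NSc.NS_of_nilpotent_fg (⊤ : Subgroup (FF n ⧸ gam n c))
    (Group.isNilpotent_top.2 (nilp n c)) (Group.fg_def.1 h1)
  exact (Group.fg_iff_subgroup_fg _).2 (h _ le_top)

theorem inf_char {G : Type*} [Group G] {H K : Subgroup G} (hH : H.Characteristic)
    (hK : K.Characteristic) : (H ⊓ K).Characteristic := by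
  rw [Subgroup.characteristic_iff_comap_eq] at hH hK ⊢
  intro φ
  rw [Subgroup.comap_inf, hH φ, hK φ]

theorem h01 (n c : ℕ) : ∀ x ∈ gam n c, ∀ y : FF n, ⁅x, y⁆ ∈ gam n (c + 1) := by
  intro x hx y
  exact Subgroup.commutator_mem_commutator hx (Subgroup.mem_top y)

theorem le_comm {n c : ℕ} (hc : 1 ≤ c) : gam n c ≤ commutator (FF n) := by
  rw [← Subgroup.top_lowerCentralSeries_one]
  exact Subgroup.lowerCentralSeries_antitone _ hc

end Step

open Step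

/-- STEP -/
theorem t_step (hr : StRes) (hs : StSep) : StStep := by
  intro n c hc N hN hNf hPC
  obtain ⟨K1, hK1c, hK1f, hK1⟩ := hPC
  have hfg := fgc n (c + 1)
  obtain ⟨K2, hK2c, hK2f, hK2⟩ := gen (G0 := gam n c) (G1 := gam n (c + 1)) (h01 n c) (le_comm hc)
    hs (fun M hM => hr n c M hc hM) N hN hNf K1 hK1
  exact ⟨K1 ⊓ K2, inf_char hK1c hK2c, inferInstance,
    fun ψ hψ hψc => hK2 ψ (fun x => (hψ x).1) (fun x => (hψ x).2) hψc⟩

end Pool.Agent.TH610.CSP
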